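import Pool.Agent.H93.BD.Targets

/-!
# (ORT) weighted orthogonality
-/

set_option autoImplicit false

open MeasureTheory Set
open scoped ENNReal NNReal Convolution

namespace Pool.Agent.H95.BD

open Pool.Agent.H93.BD

section

variable {m : ℕ}

/-- the Fourier integral on `E m` -/
noncomputable def FE (g : E m → ℂ) (y : E m) : ℂ :=
  ∫ ξ, g ξ * Complex.exp (((inner ℝ ξ y : ℝ) : ℂ) * Complex.I)

theorem eE_norm (ξ y : E m) : ‖Complex.exp (((inner ℝ ξ y : ℝ) : ℂ) * Complex.I)‖ = 1 := by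
  rw [Complex.norm_exp_ofReal_mul_I]

theorem FE_cont (g : E m → ℂ) (hg : Integrable g) : Continuous (FE g) := by
  unfold FE
  refine continuous_of_dominated (bound := fun ξ => ‖g ξ‖) ?_ ?_ hg.norm ?_
  · intro y
    have h1 : Continuous (fun ξ : E m => Complex.exp (((inner ℝ ξ y : ℝ) : ℂ) * Complex.I)) :=
      Complex.continuous_exp.comp ((Complex.continuous_ofReal.comp
        (continuous_id.inner continuous_const)).mul continuous_const)
    exact hg.aestronglyMeasurable.mul h1.aestronglyMeasurable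
  · intro y
    refine Filter.Eventually.of_forall (fun ξ => ?_)
    rw [norm_mul, eE_norm, mul_one]
  · refine Filter.Eventually.of_forall (fun ξ => ?_)
    have h1 : Continuous (fun y : E m => Complex.exp (((inner ℝ ξ y : ℝ) : ℂ) * Complex.I)) :=
      Complex.continuous_exp.comp ((Complex.continuous_ofReal.comp
        (continuous_const.inner continuous_id)).mul continuous_const)
    exact continuous_const.mul h1

/-- the convolution -/
noncomputable def cvE (G h : E m → ℂ) : E m → ℂ :=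
  G ⋆[ContinuousLinearMap.mul ℝ ℂ, volume] h

theorem cvE_apply (G h : E m → ℂ) (ξ : E m) : cvE G h ξ = ∫ t, G t * h (ξ - t) := by
  unfold cvE
  rw [convolution_def]
  rfl

theorem FE_conv (G h : E m → ℂ) (hG : Integrable G) (hh : Integrable h) (y : E m) :
    FE (cvE G h) y = FE G y * FE h y := by
  have h0 := hG.convolution_integrand (ContinuousLinearMap.mul ℝ ℂ) hh (μ := volume)
    (ν := volume)
  have h0' : Integrable (fun p : E m × E m => G p.2 * h (p.1 - p.2)) (volume.prod volume) := h0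
  have h1 : Integrable (fun p : E m × E m => G p.2 * h (p.1 - p.2) *
      Complex.exp (((inner ℝ p.1 y : ℝ) : ℂ) * Complex.I)) (volume.prod volume) := by
    have h2 : Continuous (fun p : E m × E m =>
        Complex.exp (((inner ℝ p.1 y : ℝ) : ℂ) * Complex.I)) :=
      Complex.continuous_exp.comp ((Complex.continuous_ofReal.comp
        (continuous_fst.inner continuous_const)).mul continuous_const)
    refine h0'.mono (h0'.aestronglyMeasurable.mul h2.aestronglyMeasurable) ?_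
    refine Filter.Eventually.of_forall (fun p => ?_)
    rw [norm_mul _ (Complex.exp _), eE_norm, mul_one]
  have e1 : ∀ ξ, cvE G h ξ * Complex.exp (((inner ℝ ξ y : ℝ) : ℂ) * Complex.I) =
      ∫ t, G t * h (ξ - t) * Complex.exp (((inner ℝ ξ y : ℝ) : ℂ) * Complex.I) := by
    intro ξ
    rw [cvE_apply, integral_mul_const]
  have e2 : ∀ t, ∫ ξ, G t * h (ξ - t) * Complex.exp (((inner ℝ ξ y : ℝ) : ℂ) * Complex.I) =
      G t * Complex.exp (((inner ℝ t y : ℝ) : ℂ) * Complex.I) * FE h y := by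
    intro t
    have e4 : ∀ ξ : E m, G t * h (ξ - t) * Complex.exp (((inner ℝ ξ y : ℝ) : ℂ) * Complex.I) =
        (fun ζ : E m => G t * Complex.exp (((inner ℝ t y : ℝ) : ℂ) * Complex.I) *
        (h ζ * Complex.exp (((inner ℝ ζ y : ℝ) : ℂ) * Complex.I))) (ξ - t) := by
      intro ξ
      show G t * h (ξ - t) * Complex.exp (((inner ℝ ξ y : ℝ) : ℂ) * Complex.I) =
        G t * Complex.exp (((inner ℝ t y : ℝ) : ℂ) * Complex.I) *
          (h (ξ - t) * Complex.exp (((inner ℝ (ξ - t) y : ℝ) : ℂ) * Complex.I))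
      have e5 : Complex.exp (((inner ℝ ξ y : ℝ) : ℂ) * Complex.I) =
          Complex.exp (((inner ℝ t y : ℝ) : ℂ) * Complex.I) *
            Complex.exp (((inner ℝ (ξ - t) y : ℝ) : ℂ) * Complex.I) := by
        rw [← Complex.exp_add, inner_sub_left]
        congr 1
        push_cast
        ring
      rw [e5]
      ring
    have e6 := integral_sub_right_eq_self (μ := (volume : Measure (E m)))
      (fun ζ : E m => G t * Complex.exp (((inner ℝ t y : ℝ) : ℂ) * Complex.I) *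
        (h ζ * Complex.exp (((inner ℝ ζ y : ℝ) : ℂ) * Complex.I))) t
    exact (integral_congr_ae (Filter.Eventually.of_forall e4)).trans
      (e6.trans (integral_const_mul _ _))
  show ∫ ξ, cvE G h ξ * Complex.exp (((inner ℝ ξ y : ℝ) : ℂ) * Complex.I) = _
  rw [integral_congr_ae (Filter.Eventually.of_forall e1), integral_integral_swap h1,
    integral_congr_ae (Filter.Eventually.of_forall e2), integral_mul_const]
  rfl

/-- the rescaled modulated function -/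
noncomputable def hR (h : E m → ℂ) (R : ℝ) (a : E m) (ζ : E m) : ℂ :=
  ((R ^ m : ℝ) : ℂ) * h (-(R • ζ)) * Complex.exp (-((inner ℝ ζ a : ℝ) : ℂ) * Complex.I)

theorem hR_smooth (h : E m → ℂ) (hh : ContDiff ℝ (⊤ : ℕ∞) h) (R : ℝ) (a : E m) :
    ContDiff ℝ (⊤ : ℕ∞) (hR h R a) := by
  unfold hR
  have h1 : ContDiff ℝ (⊤ : ℕ∞) (fun ζ : E m => h (-(R • ζ))) :=
    hh.comp ((contDiff_id.const_smul R).neg)
  have h2 : ContDiff ℝ (⊤ : ℕ∞) (fun ζ : E m =>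
      Complex.exp (-((inner ℝ ζ a : ℝ) : ℂ) * Complex.I)) := by
    have h3 : ContDiff ℝ (⊤ : ℕ∞) (fun ζ : E m => ((inner ℝ ζ a : ℝ) : ℂ)) :=
      Complex.ofRealCLM.contDiff.comp (contDiff_id.inner ℝ contDiff_const)
    exact (h3.neg.mul contDiff_const).cexp
  exact (contDiff_const.mul h1).mul h2

theorem hR_supp (h : E m → ℂ) (h1 : ∀ ξ, 1 < ‖ξ‖ → h ξ = 0) (R : ℝ) (hR0 : 0 < R) (a ζ : E m)
    (hz : hR h R a ζ ≠ 0) : ‖ζ‖ ≤ 1 / R := by
  by_contra hc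
  rw [not_le] at hc
  apply hz
  unfold hR
  rw [h1 (-(R • ζ)), mul_zero, zero_mul]
  rw [norm_neg, norm_smul, Real.norm_of_nonneg hR0.le]
  calc (1 : ℝ) = R * (1 / R) := by field_simp
    _ < R * ‖ζ‖ := mul_lt_mul_of_pos_left hc hR0

theorem hR_FE (h : E m → ℂ) (R : ℝ) (hR0 : 0 < R) (a y : E m) :
    FE (hR h R a) y = FE h (R⁻¹ • (a - y)) := by
  have e1 := Measure.integral_comp_smul (volume : Measure (E m))
    (fun ζ => h ζ * Complex.exp (((inner ℝ ζ (R⁻¹ • (a - y)) : ℝ) : ℂ) * Complex.I)) (-R)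
  rw [finrank_euclideanSpace, Fintype.card_fin, abs_inv, abs_pow, abs_neg, abs_of_pos hR0] at e1
  unfold FE
  have e2 : (fun ζ : E m => hR h R a ζ * Complex.exp (((inner ℝ ζ y : ℝ) : ℂ) * Complex.I)) =
      fun ζ => ((R ^ m : ℝ) : ℂ) * (h ((-R) • ζ) *
        Complex.exp (((inner ℝ ((-R) • ζ) (R⁻¹ • (a - y)) : ℝ) : ℂ) * Complex.I)) := by
    funext ζ
    unfold hR
    have e3 : (inner ℝ ((-R) • ζ) (R⁻¹ • (a - y)) : ℝ) = inner ℝ ζ y - inner ℝ ζ a := by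
      rw [real_inner_smul_left, real_inner_smul_right, inner_sub_right]
      field_simp
      ring
    have e4 : (-(R • ζ)) = (-R) • ζ := (neg_smul R ζ).symm
    rw [e3, e4]
    have e5 : Complex.exp (((inner ℝ ζ y - inner ℝ ζ a : ℝ) : ℂ) * Complex.I) =
        Complex.exp (-((inner ℝ ζ a : ℝ) : ℂ) * Complex.I) *
          Complex.exp (((inner ℝ ζ y : ℝ) : ℂ) * Complex.I) := by
      rw [← Complex.exp_add]
      congr 1
      push_cast
      ring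
    rw [e5]
    ring
  rw [e2, integral_const_mul, e1, Complex.real_smul, ← mul_assoc, ← Complex.ofReal_mul,
    mul_inv_cancel₀ (by positivity), Complex.ofReal_one, one_mul]

/-- the weight -/
noncomputable def kk (N : ℕ) (R : ℝ) (y : E m) : ℝ := ((1 + ‖y‖ / R) ^ N)⁻¹

theorem kk_pos (N : ℕ) (R : ℝ) (hR0 : 0 < R) (y : E m) : 0 < kk N R y := by
  unfold kk
  positivity

theorem kk_cont (N : ℕ) (R : ℝ) (hR0 : 0 < R) : Continuous (kk N R : E m → ℝ) := by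
  unfold kk
  refine Continuous.inv₀ ?_ (fun y => by positivity)
  exact (continuous_const.add (continuous_norm.div_const R)).pow N

theorem kk_near (N : ℕ) (R : ℝ) (hR0 : 0 < R) (y0 y a : E m) (h : ‖a - y‖ ≤ R) :
    kk N R (y0 - y) ≤ 2 ^ N * kk N R (y0 - a) := by
  unfold kk
  have h1 : ‖y0 - a‖ ≤ ‖y0 - y‖ + ‖a - y‖ := by
    have : y0 - a = (y0 - y) - (a - y) := by abel
    rw [this]
    exact norm_sub_le _ _
  have h2 : 1 + ‖y0 - a‖ / R ≤ 2 * (1 + ‖y0 - y‖ / R) := by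
    have h3 : ‖y0 - a‖ / R ≤ ‖y0 - y‖ / R + 1 := by
      calc ‖y0 - a‖ / R ≤ (‖y0 - y‖ + R) / R := by
            apply div_le_div_of_nonneg_right _ hR0.le
            linarith
        _ = ‖y0 - y‖ / R + 1 := by field_simp
    have h4 : 0 ≤ ‖y0 - y‖ / R := by positivity
    linarith
  have h5 : (1 + ‖y0 - a‖ / R) ^ N ≤ 2 ^ N * (1 + ‖y0 - y‖ / R) ^ N := by
    rw [← mul_pow]
    exact pow_le_pow_left₀ (by positivity) h2 N
  have h6 : 0 < (1 + ‖y0 - a‖ / R) ^ N := by positivity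
  have h7 : 0 < (1 + ‖y0 - y‖ / R) ^ N := by positivity
  rw [inv_eq_one_div, inv_eq_one_div, mul_one_div, div_le_div_iff₀ h7 h6, one_mul]
  exact h5

theorem kk_far (N : ℕ) (R : ℝ) (hR0 : 0 < R) (y0 y a : E m) :
    kk N R (y0 - a) ≤ kk N R (y0 - y) * (1 + ‖a - y‖ / R) ^ N := by
  unfold kk
  have h1 : ‖y0 - y‖ ≤ ‖y0 - a‖ + ‖a - y‖ := by
    have : y0 - y = (y0 - a) + (a - y) := by abel
    rw [this]
    exact norm_add_le _ _
  have h2 : 1 + ‖y0 - y‖ / R ≤ (1 + ‖y0 - a‖ / R) * (1 + ‖a - y‖ / R) := by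
    have h3 : ‖y0 - y‖ / R ≤ ‖y0 - a‖ / R + ‖a - y‖ / R := by
      rw [← add_div]
      exact div_le_div_of_nonneg_right h1 hR0.le
    have h4 : 0 ≤ ‖y0 - a‖ / R * (‖a - y‖ / R) := by positivity
    nlinarith
  have h5 : (1 + ‖y0 - y‖ / R) ^ N ≤ (1 + ‖y0 - a‖ / R) ^ N * (1 + ‖a - y‖ / R) ^ N := by
    rw [← mul_pow]
    exact pow_le_pow_left₀ (by positivity) h2 N
  have h6 : 0 < (1 + ‖y0 - a‖ / R) ^ N := by positivity
  have h7 : 0 < (1 + ‖y0 - y‖ / R) ^ N := by positivity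
  rw [inv_mul_eq_div, inv_eq_one_div, div_le_div_iff₀ h6 h7, one_mul, mul_comm]
  exact h5

/-- (a): the weight is dominated by its local averages -/
theorem avg_lower (N : ℕ) (φ : E m → ℂ) (h1 : ∀ y : E m, ‖y‖ ≤ 1 → 1 ≤ ‖φ y‖)
    (R : ℝ) (hR0 : 0 < R) (y0 y : E m) :
    ENNReal.ofReal (kk N R (y0 - y)) * (ENNReal.ofReal (R ^ m) *
      volume (Metric.closedBall (0 : E m) 1)) ≤
      2 ^ N * ∫⁻ a, ENNReal.ofReal (kk N R (y0 - a)) * ‖φ (R⁻¹ • (a - y))‖ₑ ^ (2 : ℝ) := by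
  have hvol : volume (Metric.closedBall y R) = ENNReal.ofReal (R ^ m) *
      volume (Metric.closedBall (0 : E m) 1) := by
    rw [Measure.addHaar_closedBall' volume y hR0.le, finrank_euclideanSpace, Fintype.card_fin]
  rw [← hvol, ← lintegral_const_mul' _ _ (by simp), ← setLIntegral_const]
  refine (setLIntegral_mono' measurableSet_closedBall (fun a ha => ?_)).trans
    (setLIntegral_le_lintegral _ _)
  have h2 : ‖a - y‖ ≤ R := by
    rw [← dist_eq_norm]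
    exact Metric.mem_closedBall.1 ha
  have h3 : ‖R⁻¹ • (a - y)‖ ≤ 1 := by
    rw [norm_smul, Real.norm_of_nonneg (by positivity), inv_mul_le_iff₀ hR0, mul_one]
    exact h2
  have h4 : (1 : ℝ≥0∞) ≤ ‖φ (R⁻¹ • (a - y))‖ₑ ^ (2 : ℝ) := by
    apply ENNReal.one_le_rpow _ (by norm_num)
    rw [← ofReal_norm, ← ENNReal.ofReal_one]
    exact ENNReal.ofReal_le_ofReal (h1 _ h3)
  calc ENNReal.ofReal (kk N R (y0 - y)) ≤ ENNReal.ofReal (2 ^ N * kk N R (y0 - a)) :=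
        ENNReal.ofReal_le_ofReal (kk_near N R hR0 y0 y a h2)
    _ = 2 ^ N * (ENNReal.ofReal (kk N R (y0 - a)) * 1) := by
        rw [ENNReal.ofReal_mul (by positivity), ENNReal.ofReal_pow (by norm_num), mul_one]
        simp
    _ ≤ 2 ^ N * (ENNReal.ofReal (kk N R (y0 - a)) * ‖φ (R⁻¹ • (a - y))‖ₑ ^ (2 : ℝ)) := by
        gcongr

/-- scaling of the integral -/
theorem sc_lint (R : ℝ) (hR0 : 0 < R) (y : E m) (f : E m → ℝ≥0∞) (hf : Measurable f) :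
    ∫⁻ a, f (R⁻¹ • (a - y)) = ENNReal.ofReal (R ^ m) * ∫⁻ v, f v := by
  have h1 := lintegral_sub_right_eq_self (μ := (volume : Measure (E m)))
    (fun a => f (R⁻¹ • a)) y
  rw [h1]
  have h2 : Measure.map (fun a : E m => R⁻¹ • a) volume = ENNReal.ofReal (R ^ m) • volume := by
    rw [Measure.map_addHaar_smul volume (inv_ne_zero hR0.ne'), finrank_euclideanSpace,
      Fintype.card_fin, inv_pow, inv_inv, abs_of_pos (by positivity)]
  have h3 := lintegral_map (μ := (volume : Measure (E m))) hf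
    (measurable_const_smul R⁻¹ : Measurable (fun a : E m => R⁻¹ • a))
  rw [← h3, h2, lintegral_smul_measure, smul_eq_mul]

/-- (b): averages are dominated by the weight -/
theorem avg_upper (N : ℕ) (φ : E m → ℂ) (C : ℝ)
    (h1 : ∀ y : E m, ‖φ y‖ ≤ C * ((1 + ‖y‖) ^ (N + m + 1))⁻¹)
    (R : ℝ) (hR0 : 0 < R) (y0 y : E m) :
    ∫⁻ a, ENNReal.ofReal (kk N R (y0 - a)) * ‖φ (R⁻¹ • (a - y))‖ₑ ^ (2 : ℝ) ≤
      ENNReal.ofReal (kk N R (y0 - y)) * (ENNReal.ofReal (R ^ m) *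
        ∫⁻ v : E m, ENNReal.ofReal (C ^ 2 * ((1 + ‖v‖) ^ (m + 1))⁻¹)) := by
  have hC : 0 ≤ C := by
    have := (norm_nonneg _).trans (h1 0)
    simpa using this
  have hm : Measurable (fun v : E m => ENNReal.ofReal (C ^ 2 * ((1 + ‖v‖) ^ (m + 1))⁻¹)) := by
    fun_prop
  rw [← sc_lint R hR0 y _ hm, ← lintegral_const_mul' _ _ ENNReal.ofReal_ne_top]
  refine lintegral_mono (fun a => ?_)
  obtain ⟨v, hv⟩ : ∃ v, v = R⁻¹ • (a - y) := ⟨_, rfl⟩
  have hv1 : ‖v‖ = ‖a - y‖ / R := by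
    rw [hv, norm_smul, Real.norm_of_nonneg (by positivity), inv_mul_eq_div]
  have h2 := kk_far N R hR0 y0 y a
  rw [← hv1] at h2
  rw [← hv]
  have h3 : ‖φ v‖ₑ ^ (2 : ℝ) = ENNReal.ofReal (‖φ v‖ ^ 2) := by
    rw [← ofReal_norm, ENNReal.rpow_two, ENNReal.ofReal_pow (norm_nonneg _)]
  rw [h3, ← ENNReal.ofReal_mul (kk_pos N R hR0 _).le, ← ENNReal.ofReal_mul (kk_pos N R hR0 _).le]
  apply ENNReal.ofReal_le_ofReal
  have hx : 1 ≤ 1 + ‖v‖ := by linarith [norm_nonneg v]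
  have h4 : ‖φ v‖ ^ 2 ≤ (C * ((1 + ‖v‖) ^ (N + m + 1))⁻¹) ^ 2 :=
    pow_le_pow_left₀ (norm_nonneg _) (h1 v) 2
  calc kk N R (y0 - a) * ‖φ v‖ ^ 2
      ≤ (kk N R (y0 - y) * (1 + ‖v‖) ^ N) * (C * ((1 + ‖v‖) ^ (N + m + 1))⁻¹) ^ 2 :=
        mul_le_mul h2 h4 (by positivity)
          (mul_nonneg (kk_pos N R hR0 _).le (by positivity))
    _ = kk N R (y0 - y) * (C ^ 2 * ((1 + ‖v‖) ^ N * (((1 + ‖v‖) ^ (N + m + 1))⁻¹ *
          ((1 + ‖v‖) ^ (N + m + 1))⁻¹))) := by ring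
    _ ≤ kk N R (y0 - y) * (C ^ 2 * ((1 + ‖v‖) ^ (m + 1))⁻¹) := by
        apply mul_le_mul_of_nonneg_left _ (kk_pos N R hR0 _).le
        apply mul_le_mul_of_nonneg_left _ (by positivity)
        have e1 : (1 + ‖v‖) ^ (N + m + 1) = (1 + ‖v‖) ^ N * (1 + ‖v‖) ^ (m + 1) := by
          rw [← pow_add]; rfl
        have p1 : 0 < (1 + ‖v‖) ^ N := by positivity
        have p2 : 0 < (1 + ‖v‖) ^ (m + 1) := by positivity
        have p3 : 1 ≤ (1 + ‖v‖) ^ (N + m + 1) := one_le_pow₀ hx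
        calc (1 + ‖v‖) ^ N * (((1 + ‖v‖) ^ (N + m + 1))⁻¹ * ((1 + ‖v‖) ^ (N + m + 1))⁻¹)
            ≤ (1 + ‖v‖) ^ N * (((1 + ‖v‖) ^ (N + m + 1))⁻¹ * 1) := by
              apply mul_le_mul_of_nonneg_left _ p1.le
              apply mul_le_mul_of_nonneg_left _ (by positivity)
              exact inv_le_one_of_one_le₀ p3
          _ = ((1 + ‖v‖) ^ (m + 1))⁻¹ := by
              rw [e1, mul_one, mul_inv, ← mul_assoc, mul_inv_cancel₀ p1.ne', one_mul]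

/-- pointwise: few terms -/
theorem few {ι : Type} (B : Finset ι) (f : ι → ℂ) (M : ℕ)
    (h : (B.filter (fun β => f β ≠ 0)).card ≤ M) :
    ‖∑ β ∈ B, f β‖ₑ ^ (2 : ℝ) ≤ M * ∑ β ∈ B, ‖f β‖ₑ ^ (2 : ℝ) := by
  classical
  have h1 : ∑ β ∈ B, f β = ∑ β ∈ B.filter (fun β => f β ≠ 0), f β :=
    (Finset.sum_filter_ne_zero B).symm
  have h2 : ∀ β, ‖f β‖ₑ ^ (2 : ℝ) = ENNReal.ofReal (‖f β‖ ^ 2) := by
    intro β
    rw [← ofReal_norm, ENNReal.rpow_two, ENNReal.ofReal_pow (norm_nonneg _)]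
  have h3 : ‖∑ β ∈ B, f β‖ₑ ^ (2 : ℝ) = ENNReal.ofReal (‖∑ β ∈ B, f β‖ ^ 2) := by
    rw [← ofReal_norm, ENNReal.rpow_two, ENNReal.ofReal_pow (norm_nonneg _)]
  simp_rw [h2]
  rw [h3, ← ENNReal.ofReal_sum_of_nonneg (fun β _ => by positivity), ← ENNReal.ofReal_natCast,
    ← ENNReal.ofReal_mul (Nat.cast_nonneg M)]
  apply ENNReal.ofReal_le_ofReal
  calc ‖∑ β ∈ B, f β‖ ^ 2 = ‖∑ β ∈ B.filter (fun β => f β ≠ 0), f β‖ ^ 2 := by rw [h1]
    _ ≤ (∑ β ∈ B.filter (fun β => f β ≠ 0), ‖f β‖) ^ 2 :=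
        pow_le_pow_left₀ (norm_nonneg _) (norm_sum_le _ _) 2
    _ ≤ ((B.filter (fun β => f β ≠ 0)).card : ℝ) * ∑ β ∈ B.filter (fun β => f β ≠ 0), ‖f β‖ ^ 2 :=
        sq_sum_le_card_mul_sum_sq
    _ ≤ (M : ℝ) * ∑ β ∈ B, ‖f β‖ ^ 2 := by
        apply mul_le_mul (by exact_mod_cast h) _ (by positivity) (Nat.cast_nonneg M)
        exact Finset.sum_le_sum_of_subset_of_nonneg (Finset.filter_subset _ _)
          (fun β _ _ => by positivity)

/-- (c): orthogonality after multiplication with the bump -/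
theorem orth (hPLN : T_PLN) (h : E m → ℂ) (hh : ContDiff ℝ (⊤ : ℕ∞) h)
    (h1 : ∀ ξ, 1 < ‖ξ‖ → h ξ = 0) (C0 : ℝ) (M : ℕ) (R : ℝ) (hR0 : 0 < R) {ι : Type}
    (B : Finset ι) (c : ι → E m) (G : ι → E m → ℂ)
    (hG : ∀ β ∈ B, Integrable (G β) ∧ ∀ ξ, G β ξ ≠ 0 → ‖ξ - c β‖ ≤ C0 / R)
    (hov : ∀ ξ : E m, ∀ B' ⊆ B, (∀ β ∈ B', ‖ξ - c β‖ ≤ (C0 + 1) / R) → B'.card ≤ M) (a : E m) :
    ∫⁻ y, ‖∑ β ∈ B, FE (G β) y‖ₑ ^ (2 : ℝ) * ‖FE h (R⁻¹ • (a - y))‖ₑ ^ (2 : ℝ) ≤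
      M * ∑ β ∈ B, ∫⁻ y, ‖FE (G β) y‖ₑ ^ (2 : ℝ) * ‖FE h (R⁻¹ • (a - y))‖ₑ ^ (2 : ℝ) := by
  classical
  have hRs := hR_smooth h hh R a
  have hRc : HasCompactSupport (hR h R a) := by
    refine HasCompactSupport.intro (isCompact_closedBall (0 : E m) (1 / R)) (fun ζ hζ => ?_)
    by_contra hc
    exact hζ (by simpa using hR_supp h h1 R hR0 a ζ hc)
  have hRi : Integrable (hR h R a) := hRs.continuous.integrable_of_hasCompactSupport hRc
  have hsm : ∀ β ∈ B, ContDiff ℝ (⊤ : ℕ∞) (cvE (G β) (hR h R a)) := by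
    intro β hβ
    exact hRc.contDiff_convolution_right _ (hG β hβ).1.locallyIntegrable hRs
  have hsup : ∀ β ∈ B, ∀ ξ, cvE (G β) (hR h R a) ξ ≠ 0 → ‖ξ - c β‖ ≤ (C0 + 1) / R := by
    intro β hβ ξ hξ
    rw [cvE_apply] at hξ
    obtain ⟨t, ht⟩ : ∃ t, G β t * hR h R a (ξ - t) ≠ 0 := by
      by_contra hc
      apply hξ
      have : ∀ t, G β t * hR h R a (ξ - t) = 0 := by
        intro t
        by_contra hc2
        exact hc ⟨t, hc2⟩
      simp_rw [this]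
      exact integral_zero _ _
    have h2 := (hG β hβ).2 t (left_ne_zero_of_mul ht)
    have h3 := hR_supp h h1 R hR0 a _ (right_ne_zero_of_mul ht)
    calc ‖ξ - c β‖ = ‖(t - c β) + (ξ - t)‖ := by congr 1; abel
      _ ≤ ‖t - c β‖ + ‖ξ - t‖ := norm_add_le _ _
      _ ≤ C0 / R + 1 / R := add_le_add h2 h3
      _ = (C0 + 1) / R := by rw [add_div]
  have hcs : ∀ β ∈ B, HasCompactSupport (cvE (G β) (hR h R a)) := by
    intro β hβ
    refine HasCompactSupport.intro (isCompact_closedBall (c β) ((C0 + 1) / R)) (fun ζ hζ => ?_)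
    by_contra hc
    apply hζ
    rw [Metric.mem_closedBall, dist_eq_norm]
    exact hsup β hβ ζ hc
  have hint : ∀ β ∈ B, Integrable (cvE (G β) (hR h R a)) := fun β hβ =>
    (hsm β hβ).continuous.integrable_of_hasCompactSupport (hcs β hβ)
  -- products
  have e1 : ∀ β ∈ B, ∀ y, FE (G β) y * FE h (R⁻¹ • (a - y)) = FE (cvE (G β) (hR h R a)) y := by
    intro β hβ y
    rw [FE_conv _ _ (hG β hβ).1 hRi, hR_FE h R hR0]
  have e2 : ∀ y, (∑ β ∈ B, FE (G β) y) * FE h (R⁻¹ • (a - y)) =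
      FE (fun ξ => ∑ β ∈ B, cvE (G β) (hR h R a) ξ) y := by
    intro y
    rw [Finset.sum_mul, Finset.sum_congr rfl (fun β hβ => e1 β hβ y)]
    unfold FE
    rw [← integral_finsetSum]
    · apply integral_congr_ae
      refine Filter.Eventually.of_forall (fun ξ => ?_)
      show ∑ β ∈ B, cvE (G β) (hR h R a) ξ * Complex.exp (((inner ℝ ξ y : ℝ) : ℂ) * Complex.I) =
        (∑ β ∈ B, cvE (G β) (hR h R a) ξ) * Complex.exp (((inner ℝ ξ y : ℝ) : ℂ) * Complex.I)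
      rw [Finset.sum_mul]
    · intro β hβ
      have h4 : Continuous (fun ξ : E m => Complex.exp (((inner ℝ ξ y : ℝ) : ℂ) * Complex.I)) :=
        Complex.continuous_exp.comp ((Complex.continuous_ofReal.comp
          (continuous_id.inner continuous_const)).mul continuous_const)
      refine (hint β hβ).mono ((hint β hβ).aestronglyMeasurable.mul h4.aestronglyMeasurable) ?_
      refine Filter.Eventually.of_forall (fun ξ => ?_)
      rw [norm_mul, eE_norm, mul_one]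
  have e3 : ∀ (z w : ℂ), ‖z‖ₑ ^ (2 : ℝ) * ‖w‖ₑ ^ (2 : ℝ) = ‖z * w‖ₑ ^ (2 : ℝ) := by
    intro z w
    rw [enorm_mul, ENNReal.mul_rpow_of_nonneg _ _ (by norm_num)]
  have hS : ContDiff ℝ (⊤ : ℕ∞) (fun ξ => ∑ β ∈ B, cvE (G β) (hR h R a) ξ) :=
    ContDiff.sum hsm
  have hSc : HasCompactSupport (fun ξ => ∑ β ∈ B, cvE (G β) (hR h R a) ξ) := by
    refine HasCompactSupport.intro (B.finite_toSet.isCompact_biUnion (fun β hβ => hcs β hβ))
      (fun ξ hξ => ?_)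
    apply Finset.sum_eq_zero
    intro β hβ
    by_contra hc
    apply hξ
    exact Set.mem_biUnion hβ (subset_tsupport _ hc)
  calc ∫⁻ y, ‖∑ β ∈ B, FE (G β) y‖ₑ ^ (2 : ℝ) * ‖FE h (R⁻¹ • (a - y))‖ₑ ^ (2 : ℝ)
      = ∫⁻ y, ‖FE (fun ξ => ∑ β ∈ B, cvE (G β) (hR h R a) ξ) y‖ₑ ^ (2 : ℝ) := by
        apply lintegral_congr
        intro y
        rw [e3, e2]
    _ = ENNReal.ofReal ((2 * Real.pi) ^ m) *
          ∫⁻ ξ, ‖∑ β ∈ B, cvE (G β) (hR h R a) ξ‖ₑ ^ (2 : ℝ) := hPLN m _ hS hSc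
    _ ≤ ENNReal.ofReal ((2 * Real.pi) ^ m) *
          ∫⁻ ξ, M * ∑ β ∈ B, ‖cvE (G β) (hR h R a) ξ‖ₑ ^ (2 : ℝ) := by
        gcongr with ξ
        apply few
        apply hov ξ _ (Finset.filter_subset _ _)
        intro β hβ
        rw [Finset.mem_filter] at hβ
        exact hsup β hβ.1 ξ hβ.2
    _ = M * ∑ β ∈ B, ∫⁻ y, ‖FE (G β) y‖ₑ ^ (2 : ℝ) * ‖FE h (R⁻¹ • (a - y))‖ₑ ^ (2 : ℝ) := by
        rw [lintegral_const_mul' _ _ (by simp), lintegral_finsetSum']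
        · rw [← mul_assoc, mul_comm (ENNReal.ofReal _), mul_assoc, Finset.mul_sum]
          congr 1
          apply Finset.sum_congr rfl
          intro β hβ
          rw [← hPLN m _ (hsm β hβ) (hcs β hβ)]
          apply lintegral_congr
          intro y
          rw [e3, e1 β hβ]
          rfl
        · intro β hβ
          exact ((hsm β hβ).continuous.enorm.measurable.pow_const _).aemeasurable

end

theorem pf_ORT (hETA : T_ETA) (hPLN : T_PLN) : T_ORT := by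
  intro m C0 N M _
  obtain ⟨h, hh, h1, hlow, hdec⟩ := hETA m
  obtain ⟨Cη, hCη⟩ := hdec (N + m + 1)
  have hhc : HasCompactSupport h := by
    refine HasCompactSupport.intro (isCompact_closedBall (0 : E m) 1) (fun ζ hζ => ?_)
    apply h1
    rw [Metric.mem_closedBall, dist_zero_right] at hζ
    exact not_le.1 hζ
  have hhi : Integrable h := hh.continuous.integrable_of_hasCompactSupport hhc
  have hηc : Continuous (FE h) := FE_cont h hhi
  -- the two constants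
  obtain ⟨V, hV⟩ : ∃ V : ℝ≥0∞, V = volume (Metric.closedBall (0 : E m) 1) := ⟨_, rfl⟩
  have hV0 : V ≠ 0 := by
    rw [hV]
    exact (Metric.measure_closedBall_pos volume (0 : E m) one_pos).ne'
  have hVt : V ≠ ∞ := by
    rw [hV]
    exact (isCompact_closedBall (0 : E m) 1).measure_lt_top.ne
  obtain ⟨I, hI⟩ : ∃ I : ℝ≥0∞, I =
    ∫⁻ v : E m, ENNReal.ofReal (Cη ^ 2 * ((1 + ‖v‖) ^ (m + 1))⁻¹) := ⟨_, rfl⟩
  have hIt : I ≠ ∞ := by
    rw [hI]
    have h2 : Integrable (fun v : E m => Cη ^ 2 * ((1 + ‖v‖) ^ (m + 1))⁻¹) := by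
      have h3 := integrable_one_add_norm (E := E m) (μ := volume) (r := ((m + 1 : ℕ) : ℝ))
        (by rw [finrank_euclideanSpace, Fintype.card_fin]; push_cast; linarith)
      refine (h3.const_mul (Cη ^ 2)).congr (Filter.Eventually.of_forall (fun v => ?_))
      show Cη ^ 2 * (1 + ‖v‖) ^ (-((m + 1 : ℕ) : ℝ)) = Cη ^ 2 * ((1 + ‖v‖) ^ (m + 1))⁻¹
      rw [Real.rpow_neg (by positivity), Real.rpow_natCast]
    exact h2.lintegral_lt_top.ne
  obtain ⟨K, hK⟩ : ∃ K : ℝ≥0∞, K = 2 ^ N * V⁻¹ * M * I := ⟨_, rfl⟩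
  have hKt : K ≠ ∞ := by
    rw [hK]
    refine ENNReal.mul_ne_top (ENNReal.mul_ne_top (ENNReal.mul_ne_top ?_ ?_) ?_) hIt
    · exact ENNReal.pow_ne_top (by norm_num)
    · exact ENNReal.inv_ne_top.2 hV0
    · exact ENNReal.natCast_ne_top M
  refine ⟨K.toReal, ?_⟩
  rw [ENNReal.ofReal_toReal hKt]
  intro R hR0 ι B c G hG hov y0
  obtain ⟨Rm, hRm⟩ : ∃ Rm : ℝ≥0∞, Rm = ENNReal.ofReal (R ^ m) := ⟨_, rfl⟩
  have hRm0 : Rm ≠ 0 := by
    rw [hRm, Ne, ENNReal.ofReal_eq_zero, not_le]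
    positivity
  have hRmt : Rm ≠ ∞ := by rw [hRm]; exact ENNReal.ofReal_ne_top
  have hlo : ∀ y : E m, ENNReal.ofReal (kk N R (y0 - y)) ≤ (2 ^ N * V⁻¹ * Rm⁻¹) *
      ∫⁻ a, ENNReal.ofReal (kk N R (y0 - a)) * ‖FE h (R⁻¹ • (a - y))‖ₑ ^ (2 : ℝ) := by
    intro y
    have h2 := avg_lower N (FE h) (fun y hy => hlow y hy) R hR0 y0 y
    rw [← hV, ← hRm] at h2
    calc ENNReal.ofReal (kk N R (y0 - y))
        = (ENNReal.ofReal (kk N R (y0 - y)) * (Rm * V)) * (V⁻¹ * Rm⁻¹) := by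
          rw [mul_assoc]
          have : Rm * V * (V⁻¹ * Rm⁻¹) = 1 := by
            rw [mul_assoc, ← mul_assoc V, ENNReal.mul_inv_cancel hV0 hVt, one_mul,
              ENNReal.mul_inv_cancel hRm0 hRmt]
          rw [this, mul_one]
      _ ≤ (2 ^ N * ∫⁻ a, ENNReal.ofReal (kk N R (y0 - a)) *
            ‖FE h (R⁻¹ • (a - y))‖ₑ ^ (2 : ℝ)) * (V⁻¹ * Rm⁻¹) := by
          gcongr
      _ = _ := by ring
  have hup : ∀ y : E m, ∫⁻ a, ENNReal.ofReal (kk N R (y0 - a)) *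
      ‖FE h (R⁻¹ • (a - y))‖ₑ ^ (2 : ℝ) ≤ ENNReal.ofReal (kk N R (y0 - y)) * (Rm * I) := by
    intro y
    rw [hRm, hI]
    exact avg_upper N (FE h) Cη hCη R hR0 y0 y
  have hu : ∀ β ∈ B, Continuous (FE (G β)) := fun β hβ => FE_cont _ (hG β hβ).1
  have hus : Continuous (fun y => ∑ β ∈ B, FE (G β) y) := continuous_finsetSum B hu
  have hkc : Continuous (fun y : E m => kk N R (y0 - y)) :=
    (kk_cont N R hR0).comp (continuous_const.sub continuous_id)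
  have hφm : Measurable (fun p : E m × E m => ‖FE h (R⁻¹ • (p.2 - p.1))‖ₑ ^ (2 : ℝ)) := by
    have : Continuous (fun p : E m × E m => FE h (R⁻¹ • (p.2 - p.1))) :=
      hηc.comp ((continuous_snd.sub continuous_fst).const_smul R⁻¹)
    exact this.enorm.measurable.pow_const _
  have hkm : Measurable (fun p : E m × E m => ENNReal.ofReal (kk N R (y0 - p.2))) :=
    (hkc.comp continuous_snd).measurable.ennreal_ofReal
  -- swap
  have hswap : ∀ f : E m → ℝ≥0∞, Measurable f →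
      ∫⁻ y, f y * ∫⁻ a, ENNReal.ofReal (kk N R (y0 - a)) * ‖FE h (R⁻¹ • (a - y))‖ₑ ^ (2 : ℝ) =
      ∫⁻ a, ENNReal.ofReal (kk N R (y0 - a)) *
        ∫⁻ y, f y * ‖FE h (R⁻¹ • (a - y))‖ₑ ^ (2 : ℝ) := by
    intro f hf
    have e1 : ∀ y, f y * ∫⁻ a, ENNReal.ofReal (kk N R (y0 - a)) *
        ‖FE h (R⁻¹ • (a - y))‖ₑ ^ (2 : ℝ) = ∫⁻ a, f y * (ENNReal.ofReal (kk N R (y0 - a)) *
        ‖FE h (R⁻¹ • (a - y))‖ₑ ^ (2 : ℝ)) := by
      intro y
      have m1 : Continuous (fun a : E m => FE h (R⁻¹ • (a - y))) :=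
        hηc.comp ((continuous_id.sub continuous_const).const_smul R⁻¹)
      have m2 : Measurable (fun a : E m => ENNReal.ofReal (kk N R (y0 - a)) *
          ‖FE h (R⁻¹ • (a - y))‖ₑ ^ (2 : ℝ)) :=
        hkc.measurable.ennreal_ofReal.mul (m1.enorm.measurable.pow_const _)
      rw [lintegral_const_mul _ m2]
    have e2 : ∀ a, ENNReal.ofReal (kk N R (y0 - a)) *
        ∫⁻ y, f y * ‖FE h (R⁻¹ • (a - y))‖ₑ ^ (2 : ℝ) =
        ∫⁻ y, f y * (ENNReal.ofReal (kk N R (y0 - a)) *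
        ‖FE h (R⁻¹ • (a - y))‖ₑ ^ (2 : ℝ)) := by
      intro a
      rw [← lintegral_const_mul' _ _ ENNReal.ofReal_ne_top]
      apply lintegral_congr
      intro y
      ring
    simp_rw [e1, e2]
    apply lintegral_lintegral_swap
    exact ((hf.comp measurable_fst).mul (hkm.mul hφm)).aemeasurable
  have hsm : Measurable (fun y => ‖∑ β ∈ B, FE (G β) y‖ₑ ^ (2 : ℝ)) :=
    hus.enorm.measurable.pow_const _
  have hbm : ∀ β ∈ B, Measurable (fun y => ‖FE (G β) y‖ₑ ^ (2 : ℝ)) := fun β hβ =>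
    (hu β hβ).enorm.measurable.pow_const _
  show ∫⁻ y, ‖∑ β ∈ B, FE (G β) y‖ₑ ^ (2 : ℝ) * ENNReal.ofReal (kk N R (y0 - y)) ≤
    K * ∑ β ∈ B, ∫⁻ y, ‖FE (G β) y‖ₑ ^ (2 : ℝ) * ENNReal.ofReal (kk N R (y0 - y))
  calc ∫⁻ y, ‖∑ β ∈ B, FE (G β) y‖ₑ ^ (2 : ℝ) * ENNReal.ofReal (kk N R (y0 - y))
      ≤ ∫⁻ y, ‖∑ β ∈ B, FE (G β) y‖ₑ ^ (2 : ℝ) * ((2 ^ N * V⁻¹ * Rm⁻¹) *
        ∫⁻ a, ENNReal.ofReal (kk N R (y0 - a)) * ‖FE h (R⁻¹ • (a - y))‖ₑ ^ (2 : ℝ)) := by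
        refine lintegral_mono (fun y => ?_)
        exact mul_le_mul' (le_refl _) (hlo y)
    _ = (2 ^ N * V⁻¹ * Rm⁻¹) * ∫⁻ y, ‖∑ β ∈ B, FE (G β) y‖ₑ ^ (2 : ℝ) *
        ∫⁻ a, ENNReal.ofReal (kk N R (y0 - a)) * ‖FE h (R⁻¹ • (a - y))‖ₑ ^ (2 : ℝ) := by
        rw [← lintegral_const_mul' _ _ ?_]
        · apply lintegral_congr
          intro y
          ring
        · refine ENNReal.mul_ne_top (ENNReal.mul_ne_top ?_ ?_) ?_
          · exact ENNReal.pow_ne_top (by norm_num)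
          · exact ENNReal.inv_ne_top.2 hV0
          · exact ENNReal.inv_ne_top.2 hRm0
    _ = (2 ^ N * V⁻¹ * Rm⁻¹) * ∫⁻ a, ENNReal.ofReal (kk N R (y0 - a)) *
        ∫⁻ y, ‖∑ β ∈ B, FE (G β) y‖ₑ ^ (2 : ℝ) * ‖FE h (R⁻¹ • (a - y))‖ₑ ^ (2 : ℝ) := by
        rw [hswap _ hsm]
    _ ≤ (2 ^ N * V⁻¹ * Rm⁻¹) * ∫⁻ a, ENNReal.ofReal (kk N R (y0 - a)) *
        (M * ∑ β ∈ B, ∫⁻ y, ‖FE (G β) y‖ₑ ^ (2 : ℝ) * ‖FE h (R⁻¹ • (a - y))‖ₑ ^ (2 : ℝ)) := by
        refine mul_le_mul' (le_refl _) (lintegral_mono (fun a => ?_))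
        exact mul_le_mul' (le_refl _) (orth hPLN h hh h1 C0 M R hR0 B c G hG hov a)
    _ = (2 ^ N * V⁻¹ * Rm⁻¹) * (M * ∑ β ∈ B, ∫⁻ a, ENNReal.ofReal (kk N R (y0 - a)) *
        ∫⁻ y, ‖FE (G β) y‖ₑ ^ (2 : ℝ) * ‖FE h (R⁻¹ • (a - y))‖ₑ ^ (2 : ℝ)) := by
        congr 1
        rw [← lintegral_finsetSum', ← lintegral_const_mul' _ _ (ENNReal.natCast_ne_top M)]
        · apply lintegral_congr
          intro a
          rw [← Finset.mul_sum]
          ring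
        · intro β hβ
          refine Measurable.aemeasurable ?_
          refine (hkc.measurable.ennreal_ofReal).mul ?_
          have h4 : Continuous (fun p : E m × E m => FE h (R⁻¹ • (p.1 - p.2))) :=
            hηc.comp ((continuous_fst.sub continuous_snd).const_smul R⁻¹)
          have h5 : Continuous (fun p : E m × E m => FE (G β) p.2) :=
            (hu β hβ).comp continuous_snd
          have h3 : Measurable (fun p : E m × E m => ‖FE (G β) p.2‖ₑ ^ (2 : ℝ) *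
              ‖FE h (R⁻¹ • (p.1 - p.2))‖ₑ ^ (2 : ℝ)) :=
            (h5.enorm.measurable.pow_const _).mul (h4.enorm.measurable.pow_const _)
          exact h3.lintegral_prod_right'
    _ = (2 ^ N * V⁻¹ * Rm⁻¹) * (M * ∑ β ∈ B, ∫⁻ y, ‖FE (G β) y‖ₑ ^ (2 : ℝ) *
        ∫⁻ a, ENNReal.ofReal (kk N R (y0 - a)) * ‖FE h (R⁻¹ • (a - y))‖ₑ ^ (2 : ℝ)) := by
        congr 2
        apply Finset.sum_congr rfl
        intro β hβ
        rw [hswap _ (hbm β hβ)]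
    _ ≤ (2 ^ N * V⁻¹ * Rm⁻¹) * (M * ∑ β ∈ B, ∫⁻ y, ‖FE (G β) y‖ₑ ^ (2 : ℝ) *
        (ENNReal.ofReal (kk N R (y0 - y)) * (Rm * I))) := by
        gcongr with β hβ y
        exact hup y
    _ = (2 ^ N * V⁻¹ * Rm⁻¹) * (M * ((Rm * I) * ∑ β ∈ B, ∫⁻ y, ‖FE (G β) y‖ₑ ^ (2 : ℝ) *
        ENNReal.ofReal (kk N R (y0 - y)))) := by
        congr 2
        rw [Finset.mul_sum]
        apply Finset.sum_congr rfl
        intro β hβ
        rw [← lintegral_const_mul' _ _ (ENNReal.mul_ne_top hRmt hIt)]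
        apply lintegral_congr
        intro y
        ring
    _ = K * ∑ β ∈ B, ∫⁻ y, ‖FE (G β) y‖ₑ ^ (2 : ℝ) * ENNReal.ofReal (kk N R (y0 - y)) := by
        rw [hK]
        have : Rm⁻¹ * Rm = 1 := ENNReal.inv_mul_cancel hRm0 hRmt
        calc (2 ^ N * V⁻¹ * Rm⁻¹) * (M * ((Rm * I) * ∑ β ∈ B, ∫⁻ y, ‖FE (G β) y‖ₑ ^ (2 : ℝ) *
              ENNReal.ofReal (kk N R (y0 - y))))
            = (Rm⁻¹ * Rm) * (2 ^ N * V⁻¹ * M * I * ∑ β ∈ B, ∫⁻ y, ‖FE (G β) y‖ₑ ^ (2 : ℝ) *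
              ENNReal.ofReal (kk N R (y0 - y))) := by ring
          _ = _ := by rw [this, one_mul]

end Pool.Agent.H95.BD
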