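import Pool.Agent.H93.BD.Targets

/-!
# (REP) local constancy
-/

set_option autoImplicit false

open MeasureTheory
open scoped ENNReal NNReal

namespace Pool.Agent.H95.BD

open Pool.Agent.H93.BD

section

variable {m : ℕ}

/-- the shear -/
noncomputable def sh (c' : E m) (x : X m) : X m := (x.1 + (2 * x.2) • c', x.2)

theorem sh_cont (c' : E m) : Continuous (sh c') := by
  unfold sh
  fun_prop

theorem sh_inj (c' : E m) : Function.Injective (sh c') := by
  intro x y h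
  have h' : (x.1 + (2 * x.2) • c', x.2) = (y.1 + (2 * y.2) • c', y.2) := h
  obtain ⟨h1, h2⟩ := Prod.mk.inj h'
  rw [h2] at h1
  exact Prod.ext (add_right_cancel h1) h2

theorem sh_mp1 (c' : E m) : MeasurePreserving (fun p : ℝ × E m => (p.1, p.2 + (2 * p.1) • c'))
      ((volume : Measure ℝ).prod (volume : Measure (E m)))
      ((volume : Measure ℝ).prod (volume : Measure (E m))) := by
  have hm : Measurable (Function.uncurry (fun (w : ℝ) (y : E m) => y + (2 * w) • c')) := by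
    show Measurable (fun p : ℝ × E m => p.2 + (2 * p.1) • c')
    fun_prop
  have hmap : ∀ᵐ w : ℝ, Measure.map ((fun (w : ℝ) (y : E m) => y + (2 * w) • c') w) volume =
      volume :=
    Filter.Eventually.of_forall (fun w =>
      (measurePreserving_add_right (volume : Measure (E m)) ((2 * w) • c')).map_eq)
  exact MeasurePreserving.skew_product (MeasurePreserving.id (volume : Measure ℝ)) hm hmap

theorem sh_mp (c' : E m) : MeasurePreserving (sh c') := by
  have h2 : MeasurePreserving (Prod.swap : X m → ℝ × E m)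
      ((volume : Measure (E m)).prod (volume : Measure ℝ))
      ((volume : Measure ℝ).prod (volume : Measure (E m))) := Measure.measurePreserving_swap
  have h3 : MeasurePreserving (Prod.swap : ℝ × E m → X m)
      ((volume : Measure ℝ).prod (volume : Measure (E m)))
      ((volume : Measure (E m)).prod (volume : Measure ℝ)) := Measure.measurePreserving_swap
  exact h3.comp ((sh_mp1 c').comp h2)

theorem sh_me (c' : E m) : MeasurableEmbedding (sh c') :=
  (sh_cont c').measurableEmbedding (sh_inj c')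

theorem ph_norm (z x : X m) : ‖ph z x‖ = 1 := by
  unfold ph
  rw [Complex.norm_exp_ofReal_mul_I]

theorem ph_cont2 (x : X m) : Continuous (fun p : X m × X m => ph p.2 (x - p.1)) := by
  unfold ph
  have h1 : Continuous (fun p : X m × X m => (inner ℝ p.2.1 (x.1 - p.1.1) : ℝ)) :=
    (continuous_fst.comp continuous_snd).inner
      (continuous_const.sub (continuous_fst.comp continuous_fst))
  have h2 : Continuous (fun p : X m × X m => p.2.2 * (x.2 - p.1.2)) :=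
    (continuous_snd.comp continuous_snd).mul
      (continuous_const.sub (continuous_snd.comp continuous_fst))
  exact Complex.continuous_exp.comp
    ((Complex.continuous_ofReal.comp (h1.add h2)).mul continuous_const)

theorem ph_sub (z x y : X m) : ph z (x - y) = ph z x * ph z (-y) := by
  unfold ph
  rw [← Complex.exp_add]
  congr 1
  simp only [Prod.fst_sub, Prod.snd_sub, Prod.fst_neg, Prod.snd_neg, inner_sub_right,
    inner_neg_right]
  push_cast
  ring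

/-- reproducing formula -/
theorem repro (g Ψ : X m → ℂ) (hg : Integrable g) (hΨ : Integrable Ψ)
    (h1 : ∀ z, g z ≠ 0 → ∫ x', Ψ x' * ph z (-x') = 1) (x : X m) :
    ∫ x', Ψ x' * FI g (x - x') = FI g x := by
  have hint : Integrable (fun p : X m × X m => Ψ p.1 * (g p.2 * ph p.2 (x - p.1))) := by
    have h2 := hΨ.mul_prod hg
    have h3 := ph_cont2 x
    have h5 := h3.aestronglyMeasurable (μ := (volume : Measure (X m × X m)))
    have h8 : AEStronglyMeasurable (fun p : X m × X m => Ψ p.1 * (g p.2 * ph p.2 (x - p.1)))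
        (volume : Measure (X m × X m)) :=
      (hΨ.aestronglyMeasurable.comp_fst).mul ((hg.aestronglyMeasurable.comp_snd).mul h5)
    have h6 : ∀ p : X m × X m, ‖Ψ p.1 * (g p.2 * ph p.2 (x - p.1))‖ ≤ ‖Ψ p.1 * g p.2‖ := by
      intro p
      simp only [norm_mul, ph_norm, mul_one]
      exact le_refl _
    exact h2.mono h8 (Filter.Eventually.of_forall h6)
  have e1 : ∀ x', Ψ x' * FI g (x - x') = ∫ z, Ψ x' * (g z * ph z (x - x')) := by
    intro x'
    unfold FI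
    rw [integral_const_mul]
  have e2 : ∀ z, ∫ x', Ψ x' * (g z * ph z (x - x')) = g z * ph z x := by
    intro z
    rcases eq_or_ne (g z) 0 with hz | hz
    · simp [hz]
    · have h5 : ∀ x', Ψ x' * (g z * ph z (x - x')) = (g z * ph z x) * (Ψ x' * ph z (-x')) := by
        intro x'
        rw [ph_sub]
        ring
      rw [integral_congr_ae (Filter.Eventually.of_forall h5), integral_const_mul, h1 z hz, mul_one]
  rw [integral_congr_ae (Filter.Eventually.of_forall e1), integral_integral_swap hint,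
    integral_congr_ae (Filter.Eventually.of_forall e2)]
  rfl

/-- Jensen's inequality with a weight -/
theorem jens {α : Type} [MeasurableSpace α] (μ : Measure α) (q : ℝ) (hq : 1 ≤ q)
    (a f : α → ℝ≥0∞) (ha : AEMeasurable a μ) (hf : AEMeasurable f μ) :
    (∫⁻ x, a x * f x ∂μ) ^ q ≤ (∫⁻ x, a x ∂μ) ^ (q - 1) * ∫⁻ x, a x * f x ^ q ∂μ := by
  rcases hq.eq_or_lt with h | h
  · rw [← h]
    simp
  · have hq0 : 0 < q := by linarith
    have hc : (q / (q - 1)).HolderConjugate q :=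
      (Real.HolderConjugate.conjExponent h).symm
    have h1 := ENNReal.lintegral_mul_le_Lp_mul_Lq μ hc (f := fun x => a x ^ ((q - 1) / q))
      (g := fun x => a x ^ (1 / q) * f x) (ha.pow_const _) ((ha.pow_const _).mul hf)
    have h2 : ∀ x, a x * f x = a x ^ ((q - 1) / q) * (a x ^ (1 / q) * f x) := by
      intro x
      rw [← mul_assoc, ← ENNReal.rpow_add_of_nonneg _ _ (div_nonneg (by linarith) hq0.le)
        (by positivity)]
      have : (q - 1) / q + 1 / q = 1 := by field_simp; ring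
      rw [this, ENNReal.rpow_one]
    have h3 : ∀ x, (a x ^ ((q - 1) / q)) ^ (q / (q - 1)) = a x := by
      intro x
      rw [← ENNReal.rpow_mul]
      have : (q - 1) / q * (q / (q - 1)) = 1 := by
        have : q - 1 ≠ 0 := by linarith
        field_simp
      rw [this, ENNReal.rpow_one]
    have h4 : ∀ x, (a x ^ (1 / q) * f x) ^ q = a x * f x ^ q := by
      intro x
      rw [ENNReal.mul_rpow_of_nonneg _ _ hq0.le, ← ENNReal.rpow_mul]
      have : 1 / q * q = 1 := by field_simp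
      rw [this, ENNReal.rpow_one]
    simp only [Pi.mul_apply] at h1
    simp_rw [← h2, h3, h4] at h1
    calc (∫⁻ x, a x * f x ∂μ) ^ q
        ≤ ((∫⁻ x, a x ∂μ) ^ (1 / (q / (q - 1))) * (∫⁻ x, a x * f x ^ q ∂μ) ^ (1 / q)) ^ q :=
          ENNReal.rpow_le_rpow h1 hq0.le
      _ = (∫⁻ x, a x ∂μ) ^ (q - 1) * ∫⁻ x, a x * f x ^ q ∂μ := by
          rw [ENNReal.mul_rpow_of_nonneg _ _ hq0.le, ← ENNReal.rpow_mul, ← ENNReal.rpow_mul]
          have e1 : 1 / (q / (q - 1)) * q = q - 1 := by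
            have : q - 1 ≠ 0 := by linarith
            field_simp
          have e2 : 1 / q * q = 1 := by field_simp
          rw [e1, e2, ENNReal.rpow_one]

theorem refl_mp (x : X m) : MeasurePreserving (fun z : X m => x - z) := by
  have h1 := (Measure.measurePreserving_sub_left (volume : Measure (E m)) x.1).prod
    (Measure.measurePreserving_sub_left (volume : Measure ℝ) x.2)
  exact h1

theorem refl_lint (f : X m → ℝ≥0∞) (x : X m) : ∫⁻ z, f (x - z) = ∫⁻ z, f z := by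
  have h1 : MeasurableEmbedding (fun z : X m => x - z) := by
    refine Continuous.measurableEmbedding (by fun_prop) ?_
    intro a b h
    exact sub_right_injective h
  exact (refl_mp x).lintegral_comp_emb h1 f

/-- the transversal factor -/
noncomputable def p1 (ψ : E m → ℂ) (r1 : ℝ) (c : E m) (u : E m) : ℂ :=
  ((r1 ^ m)⁻¹ : ℝ) * ψ (r1⁻¹ • u) * Complex.exp (((inner ℝ c u : ℝ) : ℂ) * Complex.I)

/-- the factor in `w` -/
noncomputable def p2 (ψ : ℝ → ℂ) (r2 b0 : ℝ) (w : ℝ) : ℂ :=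
  ((r2)⁻¹ : ℝ) * ψ (r2⁻¹ * w) * Complex.exp (((b0 * w : ℝ) : ℂ) * Complex.I)

theorem p1_norm (ψ : E m → ℂ) (r1 : ℝ) (hr : 0 < r1) (c u : E m) :
    ‖p1 ψ r1 c u‖ = (r1 ^ m)⁻¹ * ‖ψ (r1⁻¹ • u)‖ := by
  unfold p1
  rw [norm_mul, norm_mul, Complex.norm_exp_ofReal_mul_I, mul_one, Complex.norm_real,
    Real.norm_of_nonneg (by positivity)]

theorem p2_norm (ψ : ℝ → ℂ) (r2 : ℝ) (hr : 0 < r2) (b0 w : ℝ) :
    ‖p2 ψ r2 b0 w‖ = (r2)⁻¹ * ‖ψ (r2⁻¹ * w)‖ := by
  unfold p2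
  rw [norm_mul, norm_mul, Complex.norm_exp_ofReal_mul_I, mul_one, Complex.norm_real,
    Real.norm_of_nonneg (by positivity)]

theorem p1_cont (ψ : E m → ℂ) (hψ : Continuous ψ) (r1 : ℝ) (c : E m) :
    Continuous (p1 ψ r1 c) := by
  unfold p1
  fun_prop

theorem p2_cont (ψ : ℝ → ℂ) (hψ : Continuous ψ) (r2 b0 : ℝ) : Continuous (p2 ψ r2 b0) := by
  unfold p2
  fun_prop

theorem p1_int (ψ : E m → ℂ) (hψ : Continuous ψ) (hi : Integrable ψ) (r1 : ℝ) (hr : 0 < r1)
    (c : E m) : Integrable (p1 ψ r1 c) := by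
  have h1 : Integrable (fun u : E m => ψ (r1⁻¹ • u)) := hi.comp_smul (inv_ne_zero hr.ne')
  refine (h1.norm.const_mul ((r1 ^ m)⁻¹)).mono' (p1_cont ψ hψ r1 c).aestronglyMeasurable ?_
  exact Filter.Eventually.of_forall (fun u => le_of_eq (p1_norm ψ r1 hr c u))

theorem p2_int (ψ : ℝ → ℂ) (hψ : Continuous ψ) (hi : Integrable ψ) (r2 : ℝ) (hr : 0 < r2)
    (b0 : ℝ) : Integrable (p2 ψ r2 b0) := by
  have h1 : Integrable (fun u : ℝ => ψ (r2⁻¹ * u)) := hi.comp_mul_left' (inv_ne_zero hr.ne')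
  refine (h1.norm.const_mul ((r2)⁻¹)).mono' (p2_cont ψ hψ r2 b0).aestronglyMeasurable ?_
  exact Filter.Eventually.of_forall (fun u => le_of_eq (p2_norm ψ r2 hr b0 u))

theorem fr (r1 : ℝ) (hr : 0 < r1) (F : E m → ℝ) :
    ∫ u, (r1 ^ m)⁻¹ * F (r1⁻¹ • u) = ∫ u, F u := by
  rw [integral_const_mul, Measure.integral_comp_inv_smul, finrank_euclideanSpace,
    Fintype.card_fin, abs_of_pos (by positivity), smul_eq_mul, ← mul_assoc,
    inv_mul_cancel₀ (by positivity), one_mul]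

theorem frc (r1 : ℝ) (hr : 0 < r1) (F : E m → ℂ) :
    ∫ u, ((r1 ^ m)⁻¹ : ℝ) * F (r1⁻¹ • u) = ∫ u, F u := by
  rw [integral_const_mul, Measure.integral_comp_inv_smul, finrank_euclideanSpace,
    Fintype.card_fin, abs_of_pos (by positivity), Complex.real_smul, ← mul_assoc,
    ← Complex.ofReal_mul, inv_mul_cancel₀ (by positivity), Complex.ofReal_one, one_mul]

theorem fr2 (r2 : ℝ) (hr : 0 < r2) (F : ℝ → ℝ) :
    ∫ u, (r2)⁻¹ * F (r2⁻¹ * u) = ∫ u, F u := by
  rw [integral_const_mul, Measure.integral_comp_mul_left, abs_of_pos (by positivity), smul_eq_mul,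
    ← mul_assoc, inv_inv, inv_mul_cancel₀ hr.ne', one_mul]

theorem frc2 (r2 : ℝ) (hr : 0 < r2) (F : ℝ → ℂ) :
    ∫ u, ((r2)⁻¹ : ℝ) * F (r2⁻¹ * u) = ∫ u, F u := by
  rw [integral_const_mul, Measure.integral_comp_mul_left, abs_of_pos (by positivity),
    Complex.real_smul,
    ← mul_assoc, inv_inv, ← Complex.ofReal_mul, inv_mul_cancel₀ hr.ne', Complex.ofReal_one,
    one_mul]

theorem p1_norm_int (ψ : E m → ℂ) (r1 : ℝ) (hr : 0 < r1) (c : E m) :
    ∫ u, ‖p1 ψ r1 c u‖ = ∫ u, ‖ψ u‖ := by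
  simp_rw [p1_norm ψ r1 hr c]
  exact fr r1 hr (fun u => ‖ψ u‖)

theorem p2_norm_int (ψ : ℝ → ℂ) (r2 : ℝ) (hr : 0 < r2) (b0 : ℝ) :
    ∫ u, ‖p2 ψ r2 b0 u‖ = ∫ u, ‖ψ u‖ := by
  simp_rw [p2_norm ψ r2 hr b0]
  exact fr2 r2 hr (fun u => ‖ψ u‖)

theorem p1_ft (ψ : E m → ℂ)
    (h1 : ∀ ξ : E m, ‖ξ‖ ≤ 1 →
      ∫ u, ψ u * Complex.exp (-((inner ℝ ξ u : ℝ) : ℂ) * Complex.I) = 1)
    (r1 : ℝ) (hr : 0 < r1) (c ξ : E m) (h : ‖ξ - c‖ ≤ 1 / r1) :
    ∫ u, p1 ψ r1 c u * Complex.exp (-((inner ℝ ξ u : ℝ) : ℂ) * Complex.I) = 1 := by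
  have h2 : ‖r1 • (ξ - c)‖ ≤ 1 := by
    rw [norm_smul, Real.norm_of_nonneg hr.le]
    calc r1 * ‖ξ - c‖ ≤ r1 * (1 / r1) := mul_le_mul_of_nonneg_left h hr.le
      _ = 1 := by field_simp
  rw [← h1 _ h2, ← frc r1 hr (fun u => ψ u *
    Complex.exp (-((inner ℝ (r1 • (ξ - c)) u : ℝ) : ℂ) * Complex.I))]
  apply integral_congr_ae
  refine Filter.Eventually.of_forall (fun u => ?_)
  show p1 ψ r1 c u * Complex.exp (-((inner ℝ ξ u : ℝ) : ℂ) * Complex.I) = ((r1 ^ m)⁻¹ : ℝ) *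
    (ψ (r1⁻¹ • u) * Complex.exp (-((inner ℝ (r1 • (ξ - c)) (r1⁻¹ • u) : ℝ) : ℂ) * Complex.I))
  have h3 : (inner ℝ (r1 • (ξ - c)) (r1⁻¹ • u) : ℝ) = inner ℝ ξ u - inner ℝ c u := by
    rw [real_inner_smul_left, real_inner_smul_right, ← mul_assoc, mul_inv_cancel₀ hr.ne', one_mul,
      inner_sub_left]
  rw [h3]
  unfold p1
  have h4 : Complex.exp (-((inner ℝ ξ u - inner ℝ c u : ℝ) : ℂ) * Complex.I) =
      Complex.exp (((inner ℝ c u : ℝ) : ℂ) * Complex.I) *
        Complex.exp (-((inner ℝ ξ u : ℝ) : ℂ) * Complex.I) := by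
    rw [← Complex.exp_add]
    congr 1
    push_cast
    ring
  rw [h4]
  ring

theorem p2_ft (ψ : ℝ → ℂ)
    (h1 : ∀ b : ℝ, |b| ≤ 1 → ∫ u, ψ u * Complex.exp (-((b * u : ℝ) : ℂ) * Complex.I) = 1)
    (r2 : ℝ) (hr : 0 < r2) (b0 b : ℝ) (h : |b - b0| ≤ 1 / r2) :
    ∫ u, p2 ψ r2 b0 u * Complex.exp (-((b * u : ℝ) : ℂ) * Complex.I) = 1 := by
  have h2 : |r2 * (b - b0)| ≤ 1 := by
    rw [abs_mul, abs_of_pos hr]
    calc r2 * |b - b0| ≤ r2 * (1 / r2) := mul_le_mul_of_nonneg_left h hr.le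
      _ = 1 := by field_simp
  rw [← h1 _ h2, ← frc2 r2 hr (fun u => ψ u *
    Complex.exp (-((r2 * (b - b0) * u : ℝ) : ℂ) * Complex.I))]
  apply integral_congr_ae
  refine Filter.Eventually.of_forall (fun u => ?_)
  show p2 ψ r2 b0 u * Complex.exp (-((b * u : ℝ) : ℂ) * Complex.I) = ((r2)⁻¹ : ℝ) *
    (ψ (r2⁻¹ * u) * Complex.exp (-((r2 * (b - b0) * (r2⁻¹ * u) : ℝ) : ℂ) * Complex.I))
  have h3 : r2 * (b - b0) * (r2⁻¹ * u) = b * u - b0 * u := by
    field_simp
  rw [h3]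
  unfold p2
  have h4 : Complex.exp (-((b * u - b0 * u : ℝ) : ℂ) * Complex.I) =
      Complex.exp (((b0 * u : ℝ) : ℂ) * Complex.I) *
        Complex.exp (-((b * u : ℝ) : ℂ) * Complex.I) := by
    rw [← Complex.exp_add]
    congr 1
    push_cast
    ring
  rw [h4]
  ring

end

theorem pf_REP (hBMP : T_BMP) (hBMR : T_BMR) (hFCT : T_FCT) : T_REP := by
  intro m N q hq
  obtain ⟨ψE, hEc, hEi, hEd, hE1⟩ := hBMP m
  obtain ⟨ψR, hRc, hRi, hRd, hR1⟩ := hBMR
  obtain ⟨CE, hCE⟩ := hEd N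
  obtain ⟨CR, hCR⟩ := hRd N
  have hCE0 : 0 ≤ CE := by
    have := (norm_nonneg _).trans (hCE 0)
    simpa using this
  have hCR0 : 0 ≤ CR := by
    have := (norm_nonneg _).trans (hCR 0)
    simpa using this
  obtain ⟨K, hK⟩ : ∃ K : ℝ, K = (∫ u, ‖ψE u‖) * ∫ u, ‖ψR u‖ := ⟨_, rfl⟩
  have hK0 : 0 ≤ K := by rw [hK]; positivity
  refine ⟨K ^ (q - 1) * (CE * CR), ?_⟩
  intro r1 r2 hr1 hr2 c c' b0 g hg hsupp x
  obtain ⟨F, hF⟩ : ∃ F : X m → ℂ, F = fun z => p1 ψE r1 c z.1 * p2 ψR r2 b0 z.2 := ⟨_, rfl⟩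
  have hFi : Integrable F := by
    rw [hF]
    exact (p1_int ψE hEc hEi r1 hr1 c).mul_prod (p2_int ψR hRc hRi r2 hr2 b0)
  have hFc : Continuous F := by
    rw [hF]
    exact ((p1_cont ψE hEc r1 c).comp continuous_fst).mul
      ((p2_cont ψR hRc r2 b0).comp continuous_snd)
  have hΨi : Integrable (fun x' => F (sh c' x')) := (sh_mp c').integrable_comp_of_integrable hFi
  have hΨc : Continuous (fun x' => F (sh c' x')) := hFc.comp (sh_cont c')
  -- the Fourier transform is 1 on the support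
  have h1 : ∀ z, g z ≠ 0 → ∫ x', F (sh c' x') * ph z (-x') = 1 := by
    intro z hz
    obtain ⟨hz1, hz2⟩ := hsupp z hz
    have e1 : ∀ x', F (sh c' x') * ph z (-x') = (fun y : X m => F y *
        (Complex.exp (-((inner ℝ z.1 y.1 : ℝ) : ℂ) * Complex.I) *
          Complex.exp (-(((z.2 - 2 * inner ℝ c' z.1) * y.2 : ℝ) : ℂ) * Complex.I))) (sh c' x') := by
      intro x'
      show F (sh c' x') * ph z (-x') = F (sh c' x') *
        (Complex.exp (-((inner ℝ z.1 (sh c' x').1 : ℝ) : ℂ) * Complex.I) *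
          Complex.exp (-(((z.2 - 2 * inner ℝ c' z.1) * (sh c' x').2 : ℝ) : ℂ) * Complex.I))
      congr 1
      unfold ph sh
      rw [← Complex.exp_add]
      congr 1
      simp only [Prod.fst_neg, Prod.snd_neg, inner_neg_right, inner_add_right,
        real_inner_smul_right]
      rw [real_inner_comm z.1 c']
      push_cast
      ring
    have e4 := (sh_mp c').integral_comp (sh_me c') (fun y : X m => F y *
        (Complex.exp (-((inner ℝ z.1 y.1 : ℝ) : ℂ) * Complex.I) *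
          Complex.exp (-(((z.2 - 2 * inner ℝ c' z.1) * y.2 : ℝ) : ℂ) * Complex.I)))
    rw [integral_congr_ae (Filter.Eventually.of_forall e1), e4, hF]
    have e2 : ∀ y : X m, (fun z : X m => p1 ψE r1 c z.1 * p2 ψR r2 b0 z.2) y *
        (Complex.exp (-((inner ℝ z.1 y.1 : ℝ) : ℂ) * Complex.I) *
          Complex.exp (-(((z.2 - 2 * inner ℝ c' z.1) * y.2 : ℝ) : ℂ) * Complex.I)) =
        (p1 ψE r1 c y.1 * Complex.exp (-((inner ℝ z.1 y.1 : ℝ) : ℂ) * Complex.I)) *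
        (p2 ψR r2 b0 y.2 *
          Complex.exp (-(((z.2 - 2 * inner ℝ c' z.1) * y.2 : ℝ) : ℂ) * Complex.I)) := by
      intro y
      ring
    simp_rw [e2]
    have e3 := integral_prod_mul (μ := (volume : Measure (E m))) (ν := (volume : Measure ℝ))
      (fun u => p1 ψE r1 c u * Complex.exp (-((inner ℝ z.1 u : ℝ) : ℂ) * Complex.I))
      (fun w => p2 ψR r2 b0 w *
        Complex.exp (-(((z.2 - 2 * inner ℝ c' z.1) * w : ℝ) : ℂ) * Complex.I))
    rw [p1_ft ψE hE1 r1 hr1 c z.1 hz1, p2_ft ψR hR1 r2 hr2 b0 _ hz2, one_mul] at e3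
    exact e3
  have h2 := repro g (fun x' => F (sh c' x')) hg hΨi h1 x
  obtain ⟨hfc, hfb⟩ := hFCT m g hg
  -- total mass
  have h3 : ∫⁻ x', ‖F (sh c' x')‖ₑ = ENNReal.ofReal K := by
    rw [← ofReal_integral_norm_eq_lintegral_enorm hΨi]
    congr 1
    have e1 := (sh_mp c').integral_comp (sh_me c') (fun y => ‖F y‖)
    rw [e1, hF, hK]
    have e2 := integral_prod_mul (μ := (volume : Measure (E m))) (ν := (volume : Measure ℝ))
      (fun u => ‖p1 ψE r1 c u‖) (fun w => ‖p2 ψR r2 b0 w‖)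
    rw [p1_norm_int ψE r1 hr1 c, p2_norm_int ψR r2 hr2 b0] at e2
    rw [← e2]
    simp_rw [norm_mul]
    rfl
  -- pointwise bound of the kernel
  have h4 : ∀ x', ‖F (sh c' x')‖ₑ ≤ ENNReal.ofReal (CE * CR) * gw m N r1 r2 c' x' := by
    intro x'
    unfold gw
    rw [← ofReal_norm, ← ENNReal.ofReal_mul (mul_nonneg hCE0 hCR0)]
    apply ENNReal.ofReal_le_ofReal
    rw [hF]
    show ‖p1 ψE r1 c (sh c' x').1 * p2 ψR r2 b0 (sh c' x').2‖ ≤ _
    rw [norm_mul, p1_norm ψE r1 hr1, p2_norm ψR r2 hr2]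
    have f1 := hCE (r1⁻¹ • (sh c' x').1)
    have f2 := hCR (r2⁻¹ * (sh c' x').2)
    have f3 : ‖r1⁻¹ • (sh c' x').1‖ = ‖x'.1 + (2 * x'.2) • c'‖ / r1 := by
      rw [norm_smul, Real.norm_of_nonneg (by positivity), inv_mul_eq_div]
      rfl
    have f4 : |r2⁻¹ * (sh c' x').2| = |x'.2| / r2 := by
      rw [abs_mul, abs_of_pos (by positivity), inv_mul_eq_div]
      rfl
    rw [f3] at f1
    rw [f4] at f2
    calc (r1 ^ m)⁻¹ * ‖ψE (r1⁻¹ • (sh c' x').1)‖ * (r2⁻¹ * ‖ψR (r2⁻¹ * (sh c' x').2)‖)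
        ≤ (r1 ^ m)⁻¹ * (CE * ((1 + ‖x'.1 + (2 * x'.2) • c'‖ / r1) ^ N)⁻¹) *
          (r2⁻¹ * (CR * ((1 + |x'.2| / r2) ^ N)⁻¹)) := by
          gcongr
      _ = CE * CR * ((r1 ^ m * r2)⁻¹ * ((1 + ‖x'.1 + (2 * x'.2) • c'‖ / r1) ^ N)⁻¹ *
          ((1 + |x'.2| / r2) ^ N)⁻¹) := by
          rw [mul_inv]
          ring
  have hq0 : 0 ≤ q := by linarith
  have hf' : Continuous (fun x' : X m => FI g (x - x')) := hfc.comp (by fun_prop)
  calc ‖FI g x‖ₑ ^ q = ‖∫ x', F (sh c' x') * FI g (x - x')‖ₑ ^ q := by rw [h2]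
    _ ≤ (∫⁻ x', ‖F (sh c' x')‖ₑ * ‖FI g (x - x')‖ₑ) ^ q := by
        refine ENNReal.rpow_le_rpow ?_ hq0
        refine (enorm_integral_le_lintegral_enorm _).trans (le_of_eq ?_)
        simp_rw [enorm_mul]
    _ ≤ (∫⁻ x', ‖F (sh c' x')‖ₑ) ^ (q - 1) *
          ∫⁻ x', ‖F (sh c' x')‖ₑ * ‖FI g (x - x')‖ₑ ^ q :=
        jens volume q hq _ _ hΨc.enorm.measurable.aemeasurable
          hf'.enorm.measurable.aemeasurable
    _ ≤ (ENNReal.ofReal K) ^ (q - 1) *
          ∫⁻ x', ENNReal.ofReal (CE * CR) * (‖FI g (x - x')‖ₑ ^ q * gw m N r1 r2 c' x') := by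
        rw [h3]
        refine mul_le_mul' (le_refl _) (lintegral_mono (fun x' => ?_))
        calc ‖F (sh c' x')‖ₑ * ‖FI g (x - x')‖ₑ ^ q
            ≤ (ENNReal.ofReal (CE * CR) * gw m N r1 r2 c' x') * ‖FI g (x - x')‖ₑ ^ q :=
              mul_le_mul' (h4 x') (le_refl _)
          _ = ENNReal.ofReal (CE * CR) * (‖FI g (x - x')‖ₑ ^ q * gw m N r1 r2 c' x') := by ring
    _ = ENNReal.ofReal (K ^ (q - 1) * (CE * CR)) *
          cv (fun z => ‖FI g z‖ₑ ^ q) (gw m N r1 r2 c') x := by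
        rw [lintegral_const_mul' _ _ ENNReal.ofReal_ne_top, ← mul_assoc,
          ENNReal.ofReal_rpow_of_nonneg hK0 (by linarith),
          ← ENNReal.ofReal_mul (Real.rpow_nonneg hK0 _)]
        congr 1
        unfold cv
        rw [← refl_lint (fun z => ‖FI g z‖ₑ ^ q * gw m N r1 r2 c' (x - z)) x]
        simp_rw [sub_sub_cancel]

end Pool.Agent.H95.BD
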